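import Mathlib

namespace Pool.Agent.H.MP_1e3651_al

variable {A : Type} [Ring A] [Module ℂ A] [IsScalarTower ℂ A A] [SMulCommClass ℂ A A]

def bk (a b : A) : A := a * b - b * a

def X (E : Fin 3 → A) : ℕ → Fin 3 → A
  | 0, p => E p
  | k + 1, p => - bk (E (p + 1)) (X E k (p + 2))

def W (E : Fin 3 → A) (n : ℕ) : Submodule ℂ A := Submodule.span ℂ {a | ∃ k ≤ n, ∃ p, a = X E k p}

theorem h11 : ∀ p : Fin 3, p + 1 + 1 = p + 2 := by decide
theorem h12 : ∀ p : Fin 3, p + 1 + 2 = p := by decide
theorem h21 : ∀ p : Fin 3, p + 2 + 1 = p := by decide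
theorem h22 : ∀ p : Fin 3, p + 2 + 2 = p + 1 := by decide

variable (E : Fin 3 → A)

omit [IsScalarTower ℂ A A] [SMulCommClass ℂ A A] in
theorem X_mem {k n : ℕ} (h : k ≤ n) (p : Fin 3) : X E k p ∈ W E n :=
  Submodule.subset_span ⟨k, h, p, rfl⟩

omit [IsScalarTower ℂ A A] [SMulCommClass ℂ A A] in
theorem W_mono {m n : ℕ} (h : m ≤ n) : W E m ≤ W E n :=
  Submodule.span_mono fun _ ⟨k, hk, p, e⟩ => ⟨k, hk.trans h, p, e⟩

def P (n : ℕ) : Prop := ∀ i j, i + j = n → ∀ p, bk (X E i p) (X E j p) ∈ W E n ∧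
  bk (X E i p) (X E j (p + 1)) + X E (n + 1) (p + 2) ∈ W E n

omit [IsScalarTower ℂ A A] [SMulCommClass ℂ A A] in
theorem P_mem {i j : ℕ} (h : P E (i + j)) (p q : Fin 3) :
    bk (X E i p) (X E j q) ∈ W E (i + j + 1) := by
  have : ∀ p q : Fin 3, q = p ∨ q = p + 1 ∨ p = q + 1 := by decide
  rcases this p q with rfl | rfl | rfl
  · exact W_mono E (Nat.le_succ _) (h i j rfl _).1
  · have := sub_mem (W_mono E (Nat.le_succ _) (h i j rfl p).2) (X_mem E le_rfl (p + 2))
    simpa using this
  · have := sub_mem (X_mem E le_rfl (q + 2)) (W_mono E (Nat.le_succ _) (h j i (add_comm _ _) q).2)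
    convert this using 1
    simp only [bk]; abel

theorem bk_W {m k n : ℕ} (h : ∀ l < n, P E l) (hm : m + k + 1 ≤ n) (q : Fin 3) (w : A)
    (hw : w ∈ W E m) : bk w (X E k q) ∈ W E n := by
  induction hw using Submodule.span_induction with
  | mem a ha =>
    obtain ⟨l, hl, p, rfl⟩ := ha
    exact W_mono E (by omega) (P_mem E (h (l + k) (by omega)) p q)
  | zero => simp [bk]
  | add a b _ _ ha hb =>
    convert add_mem ha hb using 1
    simp only [bk]; noncomm_ring
  | smul c a _ ha =>
    convert (W E n).smul_mem c ha using 1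
    simp only [bk, smul_sub, smul_mul_assoc, mul_smul_comm]

theorem step (n : ℕ) (hn : 2 ≤ n) (h : ∀ l < n, P E l) : P E n := by
  let π := (W E n).mkQ
  let B : ℕ → ℕ → Fin 3 → Fin 3 → A ⧸ W E n := fun i j p q => π (bk (X E i p) (X E j q))
  have anti : ∀ i j p q, B i j p q = - B j i q p := fun i j p q => by
    simp only [B, ← map_neg]
    congr 1
    simp only [bk]; abel
  have z : ∀ a ∈ W E n, π a = 0 := fun a ha => (Submodule.Quotient.mk_eq_zero _).2 ha
  have r0 : ∀ i j k p q, i + j + k + 1 = n →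
      π (bk (bk (X E i p) (X E j p)) (X E k q)) = 0 := fun i j k p q e =>
    z _ (bk_W E h (by omega) q _ (h (i + j) (by omega) i j rfl p).1)
  have r1 : ∀ i j k p q, i + j + k + 1 = n →
      π (bk (bk (X E i p) (X E j (p + 1))) (X E k q)) = - B (i + j + 1) k (p + 2) q := by
    intro i j k p q e
    have := z _ (bk_W E h (show i + j + k + 1 ≤ n by omega) q _ (h (i + j) (by omega) i j rfl p).2)
    rw [eq_neg_iff_add_eq_zero, ← this, ← map_add]
    congr 1
    simp only [bk]; noncomm_ring
  have r2 : ∀ i j k p q, i + j + k + 1 = n →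
      π (bk (bk (X E j (p + 1)) (X E i p)) (X E k q)) = B (i + j + 1) k (p + 2) q := by
    intro i j k p q e
    rw [← neg_neg (B _ _ _ _), ← r1 i j k p q e, ← map_neg]
    congr 1
    simp only [bk]; noncomm_ring
  have jac : ∀ a b c : A, π (bk (bk a b) c) + π (bk (bk b c) a) + π (bk (bk c a) b) = 0 := by
    intro a b c
    rw [← map_add, ← map_add, ← map_zero π]
    congr 1
    simp only [bk]; noncomm_ring
  have J1 : ∀ i j k p, i + j + k + 1 = n → B i (j + k + 1) p p + B j (k + i + 1) (p + 1) (p + 1) +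
      B k (i + j + 1) (p + 2) (p + 2) = 0 := by
    intro i j k p e
    have := jac (X E i p) (X E j (p + 1)) (X E k (p + 2))
    have e2 := r1 j k i (p + 1) p (by omega)
    have e3 := r1 k i j (p + 2) (p + 1) (by omega)
    rw [h11, h12] at e2
    rw [h21, h22] at e3
    rw [r1 i j k p _ e, e2, e3, ← anti, ← anti, ← anti] at this
    rw [← this]; abel
  have J2 : ∀ j q, j + 1 = n → B 1 j q (q + 1) = B (j + 1) 0 q (q + 1) := by
    intro k q e
    have := jac (X E 0 (q + 1)) (X E 0 (q + 1 + 1)) (X E k (q + 1))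
    rw [r1 0 0 k (q + 1) _ (by omega), r2 k 0 0 (q + 1) _ (by omega),
      r0 k 0 0 _ _ (by omega), h12] at this
    rw [← sub_eq_zero, ← neg_eq_zero, ← this]
    simp only [zero_add, add_zero]; abel
  have J3 : ∀ i k q, i + k + 1 = n → B k (i + 1) q (q + 1) = B 0 (i + k + 1) q (q + 1) := by
    intro i k q e
    have := jac (X E i (q + 2)) (X E 0 (q + 2 + 1)) (X E k (q + 2 + 1))
    rw [r1 i 0 k (q + 2) _ (by omega), r2 i k 0 (q + 2) _ (by omega),
      r0 0 k i _ _ (by omega), h21, h22, ← anti, anti (i + k + 1)] at this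
    rw [← sub_eq_zero, ← this]
    simp only [add_zero]; abel
  have O : ∀ i j q, i + j = n → B i j q (q + 1) = B 0 n q (q + 1) := by
    intro i j q e
    rcases j with _ | j
    · obtain ⟨m, rfl⟩ : ∃ m, n = m + 2 := ⟨n - 2, by omega⟩
      rw [show i = m + 1 + 1 by omega, ← J2 (m + 1) q rfl, J3 m 1 q rfl]
    · rw [J3 j i q (by omega), show j + i + 1 = n by omega]
  let D : ℕ → Fin 3 → A ⧸ W E n := fun i q => B i (n - i) q q
  have D1 : ∀ i j k p, i + j + k + 1 = n → D i p + D j (p + 1) + D k (p + 2) = 0 := by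
    intro i j k p e
    have := J1 i j k p e
    simp only [D]
    rwa [show n - i = j + k + 1 by omega, show n - j = k + i + 1 by omega,
      show n - k = i + j + 1 by omega]
  have D2 : ∀ i j p, i + j = n → D i p = - D j p := by
    intro i j p e
    simp only [D]
    rw [anti, show n - i = j by omega, show n - j = i by omega]
  have D3 : ∀ i p, i + 2 ≤ n → D (i + 1) p - D i p = D 1 (p + 1) - D 0 (p + 1) := by
    intro i p e
    have e1 := D1 (i + 1) 0 (n - 2 - i) p (by omega)
    have e2 := D1 i 1 (n - 2 - i) p (by omega)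
    linear_combination (norm := module) e1 - e2
  set δ := D 1 0 - D 0 0 with hδ
  have D4 : ∀ p, D 1 p - D 0 p = δ := by
    have e1 := D3 0 0 (by omega)
    have e2 := D3 0 1 (by omega)
    intro p
    fin_cases p
    · rfl
    · exact e1.symm
    · exact (e1.trans e2).symm
  have D5 : ∀ i p, i + 1 ≤ n → D i p = D 0 p + (i : ℂ) • δ := by
    intro i p
    induction i with
    | zero => simp
    | succ i ih =>
      intro e
      have e1 := D3 i p (by omega)
      rw [D4] at e1
      have e2 := ih (by omega)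
      push_cast
      linear_combination (norm := module) e1 + e2
  obtain ⟨m, rfl⟩ : ∃ m, n = m + 2 := ⟨n - 2, by omega⟩
  have D6 : ∀ p, (2 : ℂ) • D 0 p + ((m : ℂ) + 2) • δ = 0 := by
    intro p
    have e1 := D2 1 (m + 1) p (by omega)
    rw [D5 1 p (by omega), D5 (m + 1) p (by omega)] at e1
    push_cast at e1
    linear_combination (norm := module) e1
  have D7 : δ = 0 := by
    have e1 := D1 0 0 (m + 1) 0 (by omega)
    rw [D5 (m + 1) _ (by omega)] at e1
    push_cast at e1
    have e2 : ((m : ℂ) + 4) • δ = 0 := by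
      linear_combination (norm := module) D6 0 + D6 1 + D6 2 - (2 : ℂ) • e1
    refine (smul_eq_zero.1 e2).resolve_left ?_
    exact_mod_cast (show m + 4 ≠ 0 by omega)
  have D8 : ∀ p, D 0 p = 0 := fun p => by
    have := D6 p
    rw [D7, smul_zero, add_zero] at this
    exact (smul_eq_zero.1 this).resolve_left two_ne_zero
  intro i j e p
  constructor
  · rw [← Submodule.Quotient.mk_eq_zero]
    have : D i p = 0 := by
      rcases j with _ | j
      · rw [D2 i 0 p e, D8, neg_zero]
      · rw [D5 i p (by omega), D7, D8]; simp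
    simp only [D] at this
    rwa [show m + 2 - i = j by omega] at this
  · rw [← Submodule.Quotient.mk_eq_zero]
    have := O i j p e
    change π _ = 0
    rw [map_add]
    change B i j p (p + 1) + _ = 0
    rw [this, X, h21, h22, map_neg]
    exact add_neg_cancel _

theorem allP (h1 : ∀ p, bk (E p) (bk (E (p + 1)) (E (p + 2))) ∈ W E 1)
    (h2 : ∀ p, bk (E p) (bk (E (p + 2)) (E p)) +
      bk (E (p + 1)) (bk (E (p + 1)) (E (p + 2))) ∈ W E 1) (n : ℕ) : P E n := by
  induction n using Nat.strong_induction_on with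
  | _ n ih =>
    rcases n with _ | _ | n
    · intro i j e p
      obtain ⟨rfl, rfl⟩ : i = 0 ∧ j = 0 := by omega
      simp [X, bk, h21, h22]
    · intro i j e p
      rcases (show (i = 0 ∧ j = 1) ∨ (i = 1 ∧ j = 0) by omega) with ⟨rfl, rfl⟩ | ⟨rfl, rfl⟩
      · refine ⟨?_, by simp [X, h21, h22]⟩
        convert neg_mem (h1 p) using 1
        simp only [X, bk]; noncomm_ring
      · refine ⟨?_, ?_⟩
        · convert h1 p using 1
          simp only [X, bk]; noncomm_ring
        · convert h2 p using 1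
          simp only [X, bk, h11, h12, h21, h22]; noncomm_ring
    · exact step E _ (by omega) ih

theorem closed (h : ∀ n, P E n) (a b : A) (ha : a ∈ ⨆ n, W E n) (hb : b ∈ ⨆ n, W E n) :
    bk a b ∈ ⨆ n, W E n := by
  have mono : Monotone (W E) := fun _ _ => W_mono E
  rw [Submodule.mem_iSup_of_directed _ mono.directed_le] at ha hb
  obtain ⟨m, ha⟩ := ha
  obtain ⟨k, hb⟩ := hb
  refine Submodule.mem_iSup_of_mem (m + k + 1) ?_
  induction hb using Submodule.span_induction with
  | mem b hb =>
    obtain ⟨l, hl, p, rfl⟩ := hb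
    exact bk_W E (fun l _ => h l) (show m + l + 1 ≤ _ by omega) p a ha
  | zero => simp [bk]
  | add b c _ _ hb hc =>
    convert add_mem hb hc using 1
    simp only [bk]; noncomm_ring
  | smul c b _ hb =>
    convert Submodule.smul_mem _ c hb using 1
    simp only [bk, smul_sub, smul_mul_assoc, mul_smul_comm]

def V (E : Fin 3 → A) (n : ℕ) : Submodule ℂ A := Submodule.span ℂ {a | ∃ k < n, ∃ p, a = X E k p}

omit [IsScalarTower ℂ A A] [SMulCommClass ℂ A A] in
theorem Vsucc : ∀ n, ∀ a ∈ V E (n + 1), ∃ c : Fin 3 → ℂ, a - ∑ p, c p • X E n p ∈ V E n := by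
  intro n a ha
  induction ha using Submodule.span_induction with
  | mem a ha =>
    obtain ⟨k, hk, p, rfl⟩ := ha
    by_cases h : k = n
    · exact ⟨Pi.single p 1, by simp [h, Pi.single_apply]⟩
    · have : X E k p ∈ V E n := Submodule.subset_span ⟨k, by omega, p, rfl⟩
      exact ⟨0, by simpa using this⟩
  | zero => exact ⟨0, by simp⟩
  | add a b _ _ ha hb =>
    obtain ⟨c, hc⟩ := ha
    obtain ⟨d, hd⟩ := hb
    refine ⟨c + d, ?_⟩
    convert add_mem hc hd using 1
    simp only [Pi.add_apply, add_smul, Finset.sum_add_distrib]; abel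
  | smul r a _ ha =>
    obtain ⟨c, hc⟩ := ha
    refine ⟨r • c, ?_⟩
    convert Submodule.smul_mem _ r hc using 1
    simp only [Pi.smul_apply, smul_eq_mul, mul_smul, smul_sub, Finset.smul_sum]

theorem neg_br {A : Type} [Ring A] (a b : A) : -b * -a - -a * -b = -(a * b - b * a) := by
  noncomm_ring

theorem smul_br {K : Type} [CommRing K] (s t : K) (N N' : Matrix (Fin 3) (Fin 3) K) :
    -bk (s • N) (t • N') = (s * t) • (N' * N - N * N') := by
  simp only [bk, Matrix.smul_mul, Matrix.mul_smul, smul_smul, smul_sub, neg_sub, mul_comm]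

end Pool.Agent.H.MP_1e3651_al
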